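import Pool.Agent.Run7.h520.MZ.I

/-!
Pieces `FORTH` and `OVER` of `Pool/Agent/Run7/h520/MZ/I.lean` (MP_5076ba_lc).
-/

set_option autoImplicit false

namespace Run7.h586.MZ
open Run7.h520.MZ

theorem val_snd (x : M0) : (val x).2 = 1 ↔ isP x := by
  rcases x with p | x
  · simp [val, isP]
  · simp [val, isP]

theorem val_snd' (x : M0) : (val x).2 = 0 ↔ ¬ isP x := by
  rcases x with p | x
  · simp [val, isP]
  · simp [val, isP]

theorem lc_single {α : Type} (s : α → M0) (i : α) : lc s (Finsupp.single i 1) = val (s i) := by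
  simp [lc]

theorem lc_sub {α : Type} (s : α → M0) (c d : α →₀ ZMod 2) : lc s (c - d) = lc s c - lc s d := by
  simp [lc]

theorem lc_zero {α : Type} (s : α → M0) : lc s 0 = 0 := by
  simp [lc]

theorem lc_snd {α : Type} {s t : α → M0} (h : ∀ i, isP (s i) ↔ isP (t i)) (c : α →₀ ZMod 2) :
    (lc s c).2 = (lc t c).2 := by
  have key : ∀ i, (val (s i)).2 = (val (t i)).2 := by
    intro i
    by_cases hi : isP (s i)
    · rw [(val_snd _).2 hi, (val_snd _).2 ((h i).1 hi)]
    · rw [(val_snd' _).2 hi, (val_snd' _).2 (fun h' => hi ((h i).2 h'))]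
  simp only [lc, Finsupp.linearCombination_apply, Finsupp.sum, Prod.snd_sum, Prod.smul_snd, key]

/-- The restriction of coefficients. -/
noncomputable def res {α : Type} : (α ⊕ Unit →₀ ZMod 2) →ₗ[ZMod 2] (α →₀ ZMod 2) :=
  Finsupp.lcomapDomain Sum.inl Sum.inl_injective

theorem res_inl {α : Type} (a : α) (b : ZMod 2) :
    res (Finsupp.single (Sum.inl a : α ⊕ Unit) b) = Finsupp.single a b := by
  ext i
  simp only [res, Finsupp.lcomapDomain, LinearMap.coe_mk, AddHom.coe_mk,
    Finsupp.comapDomain_apply]
  rw [Finsupp.single_apply_left Sum.inl_injective]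

theorem res_inr {α : Type} (u : Unit) (b : ZMod 2) :
    res (Finsupp.single (Sum.inr u : α ⊕ Unit) b) = 0 := by
  ext i
  simp only [res, Finsupp.lcomapDomain, LinearMap.coe_mk, AddHom.coe_mk,
    Finsupp.comapDomain_apply]
  simp

/-- The linear combinations of an extended tuple. -/
theorem lc_elim {α : Type} (s : α → M0) (x : M0) (c : α ⊕ Unit →₀ ZMod 2) :
    lc (Sum.elim s (fun _ : Unit => x)) c = lc s (res c) + c (Sum.inr ()) • val x := by
  induction c using Finsupp.induction_linear with
  | zero => simp [lc]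
  | add f g hf hg =>
    unfold lc at *
    rw [map_add, hf, hg, map_add, map_add, Finsupp.add_apply, add_smul]
    abel
  | single a b =>
    rcases a with a | a
    · rw [res_inl]
      simp [lc]
    · rw [res_inr]
      simp [lc]

theorem zmod2 (a : ZMod 2) : a = 0 ∨ a = 1 := by
  fin_cases a
  · exact Or.inl rfl
  · exact Or.inr rfl

theorem add_eq_zero_iff {x y : V × ZMod 2} : x + y = 0 ↔ x = y := by
  have h : y + y = 0 := by
    have : (2 : ZMod 2) • y = 0 := by
      have h2 : (2 : ZMod 2) = 0 := rfl
      rw [h2, zero_smul]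
    rwa [two_smul] at this
  constructor
  · intro hxy
    have := hxy.trans h.symm
    exact add_right_cancel this
  · rintro rfl
    exact h

theorem ext {α : Type} {s t : α → M0} (h : Sim s t) {x y : M0} (hP : isP x ↔ isP y)
    (he : ∀ i, s i = x ↔ t i = y) (hl : ∀ c, lc s c = val x ↔ lc t c = val y) :
    Sim (Sum.elim s (fun _ : Unit => x)) (Sum.elim t (fun _ : Unit => y)) where
  P := by
    rintro (i | i)
    · exact h.P i
    · exact hP
  eq := by
    rintro (i | i) (j | j)
    · exact h.eq i j
    · exact he i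
    · simp only [Sum.elim_inl, Sum.elim_inr]
      rw [eq_comm, he j, eq_comm]
    · simp
  lin := by
    intro c
    rw [lc_elim, lc_elim]
    rcases zmod2 (c (Sum.inr ())) with h0 | h0
    · rw [h0]
      simpa using h.lin _
    · rw [h0, one_smul, one_smul, add_eq_zero_iff, add_eq_zero_iff]
      exact hl _

/-- If one combination represents the values, so do the same combinations. -/
theorem lin_iff {α : Type} {s t : α → M0} (h : Sim s t) {x y : M0} {c₀ : α →₀ ZMod 2}
    (hx : lc s c₀ = val x) (hy : lc t c₀ = val y) (c : α →₀ ZMod 2) :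
    lc s c = val x ↔ lc t c = val y := by
  rw [← hx, ← hy, ← sub_eq_zero, ← lc_sub, h.lin, lc_sub, sub_eq_zero]

theorem val_inj_P {x y : M0} (hx : isP x) (h : val y = val x) : y = x := by
  rcases x with p | x
  · rcases y with q | y
    · simp only [val, Prod.mk.injEq, and_true] at h
      rw [h]
    · simp [val] at h
  · exact hx.elim

theorem span_finite {α : Type} [Finite α] (t : α → M0) : (Set.range (lc t)).Finite := by
  have : Finite (α →₀ ZMod 2) := Finite.of_equiv _ (Finsupp.equivFunOnFinite).symm
  exact Set.finite_range _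

theorem exists_out {α : Type} [Finite α] (t : α → M0) (a : ZMod 2) :
    ∃ q : V, ∀ c, lc t c ≠ (q, a) := by
  have hfin : (Prod.fst '' Set.range (lc t)).Finite := (span_finite t).image _
  have : Infinite V := inferInstance
  obtain ⟨q, hq⟩ := hfin.exists_notMem
  exact ⟨q, fun c hc => hq ⟨lc t c, ⟨c, rfl⟩, by rw [hc]⟩⟩

theorem t_over : S_OVER := by
  intro α _ s x y hP hne hv
  have hs : Sim s s := ⟨fun _ => Iff.rfl, fun _ _ => Iff.rfl, fun _ => Iff.rfl⟩
  refine ext hs hP (fun i => ?_) (fun c => ?_)
  · exact iff_of_false (hne i).1 (hne i).2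
  · rcases hv with hv | ⟨h1, h2⟩
    · rw [hv]
    · exact iff_of_false (h1 c) (h2 c)

theorem t_forth : S_FORTH := by
  intro α _ s t h x
  by_cases hex : ∃ i, s i = x
  · obtain ⟨i, rfl⟩ := hex
    exact ⟨t i, ext h (h.P i) (fun j => h.eq j i)
      (fun c => lin_iff h (lc_single s i) (lc_single t i) c)⟩
  · push Not at hex
    rcases x with p | ⟨w, k⟩
    · by_cases hc : ∃ c₀, lc s c₀ = val (Sum.inl p)
      · obtain ⟨c₀, hc₀⟩ := hc
        have h2 : (lc t c₀).2 = 1 := by
          rw [← lc_snd h.P, hc₀]
          rfl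
        have hy : lc t c₀ = val (Sum.inl (lc t c₀).1) := by
          show lc t c₀ = ((lc t c₀).1, 1)
          rw [← h2]
        have hlin := lin_iff h hc₀ hy
        refine ⟨Sum.inl (lc t c₀).1, ext h Iff.rfl (fun i => ?_) hlin⟩
        refine iff_of_false (hex i) (fun hi => hex i ?_)
        have e1 : lc t (Finsupp.single i 1) = val (Sum.inl (lc t c₀).1) := by
          rw [lc_single, hi]
        have e2 := (hlin _).2 e1
        rw [lc_single] at e2
        exact val_inj_P (x := Sum.inl p) trivial e2
      · push Not at hc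
        obtain ⟨q, hq⟩ := exists_out t 1
        refine ⟨Sum.inl q, ext h Iff.rfl (fun i => ?_) (fun c => ?_)⟩
        · refine iff_of_false (hex i) (fun hi => hq (Finsupp.single i 1) ?_)
          rw [lc_single, hi]
          rfl
        · exact iff_of_false (hc c) (hq c)
    · by_cases hc : ∃ c₀, lc s c₀ = val (Sum.inr (w, k))
      · obtain ⟨c₀, hc₀⟩ := hc
        have h2 : (lc t c₀).2 = 0 := by
          rw [← lc_snd h.P, hc₀]
          rfl
        have hw : (lc t c₀).1 ≠ 0 := by
          intro h1
          have : lc t c₀ = 0 := Prod.ext h1 h2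
          rw [← h.lin, hc₀] at this
          have h3 : w.1 = 0 := congrArg Prod.fst this
          exact w.2 h3
        have hfin : {k' : ℕ | ∃ i, t i = Sum.inr (⟨(lc t c₀).1, hw⟩, k')}.Finite := by
          refine (Set.finite_range (fun i => match t i with
            | Sum.inl _ => 0
            | Sum.inr z => z.2)).subset ?_
          rintro k' ⟨i, hi⟩
          refine ⟨i, ?_⟩
          simp only [hi]
        obtain ⟨k', hk'⟩ := hfin.exists_notMem
        have hk'' : ∀ i, t i ≠ Sum.inr (⟨(lc t c₀).1, hw⟩, k') := fun i hi => hk' ⟨i, hi⟩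
        have hy : lc t c₀ = val (Sum.inr (⟨(lc t c₀).1, hw⟩, k')) := by
          show lc t c₀ = ((lc t c₀).1, 0)
          rw [← h2]
        exact ⟨Sum.inr (⟨(lc t c₀).1, hw⟩, k'), ext h Iff.rfl
          (fun i => iff_of_false (hex i) (hk'' i)) (lin_iff h hc₀ hy)⟩
      · push Not at hc
        obtain ⟨q, hq⟩ := exists_out t 0
        have hq0 : q ≠ 0 := by
          rintro rfl
          exact hq 0 (lc_zero t)
        refine ⟨Sum.inr (⟨q, hq0⟩, 0), ext h Iff.rfl (fun i => ?_) (fun c => ?_)⟩
        · refine iff_of_false (hex i) (fun hi => hq (Finsupp.single i 1) ?_)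
          rw [lc_single, hi]
          rfl
        · exact iff_of_false (hc c) (hq c)

end Run7.h586.MZ
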